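import Mathlib
import Pool.Agent.Lib.Pdcd72d.Final

/-!
# No uniform gap for the cohomological Lyapunov exponents `μ_i`, `i ≥ 2`

A projective variety `X` over `k` with a very ample line bundle `L` (given by an embedding) is
encoded birationally: `K` is the function field of `X`, and `V ⊆ K` is the finite dimensional
`k`-space spanned by `1, x_1/x_0, …, x_N/x_0`, the homogeneous coordinates of the embedding
restricted to `X`.  Conversely a finite dimensional `V ∋ 1` generating `K` gives the projective
variety `X_V ⊆ P(V)` with `L = O(1)`.  A dominant rational self-map `f` of `X` is the same thing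
as a `k`-algebra endomorphism `f^*` of `K`.

For the graph `Γ_f ⊆ X × X ⊆ P^N × P^N`, the space of bihomogeneous forms of bidegree `(a, b)`
restricted to `Γ_f` is `V ^ a * (f^* V) ^ b ⊆ K`; hence
`dim_k (V ^ (t a) * (f^* V) ^ (t b))` is, for large `t`, the Hilbert polynomial of `Γ_f` for the
very ample line bundle `π_1^* L^a ⊗ π_2^* L^b`, and its leading coefficient is
`(a π_1^* L + b π_2^* L)^d / d! = ∑_i deg_{i,L}(f) a^{d-i} b^i / ((d-i)! i!)`.
-/

open Filter Topology

namespace Pool.Agent.Results.MP_dcd72d_ag.NoUniformGap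

universe u

/-- `K` is the function field of a `d`-dimensional projective variety over `k`, embedded in
projective space by (a basis of) the finite dimensional space `V ∋ 1` of rational functions. -/
structure IsProjectiveModel {k K : Type u} [Field k] [Field K] [Algebra k K]
    (d : ℕ) (V : Submodule k K) : Prop where
  finiteDimensional : V.FG
  one_mem : (1 : K) ∈ V
  adjoin_eq_top : IntermediateField.adjoin k (V : Set K) = ⊤
  trdeg_eq : Algebra.trdeg k K = d

/-- The space of bihomogeneous forms of bidegree `(a, b)` on the graph of the rational self-map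
`f` (given by its pull-back `f : K →ₐ[k] K`), as a subspace of the function field of the graph. -/
noncomputable def graphForms {k K : Type u} [Field k] [Field K] [Algebra k K]
    (V : Submodule k K) (f : K →ₐ[k] K) (a b : ℕ) : Submodule k K :=
  V ^ a * (V.map f.toLinearMap) ^ b

/-- `δ 0, …, δ d` are the intersection numbers `deg_{i,L} f = (π_2^* L)^i (π_1^* L)^{d-i}` on the
graph of `f`: for all `a, b ≥ 1` the leading coefficient of the Hilbert polynomial of
`π_1^* L^a ⊗ π_2^* L^b` on the graph is `∑_i δ_i a^{d-i} b^i / ((d-i)! i!)`. -/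
def HasDegrees {k K : Type u} [Field k] [Field K] [Algebra k K]
    (d : ℕ) (V : Submodule k K) (f : K →ₐ[k] K) (δ : ℕ → ℝ) : Prop :=
  ∀ a b : ℕ, 1 ≤ a → 1 ≤ b →
    Tendsto (fun t : ℕ =>
      (Module.finrank k (graphForms V f (t * a) (t * b)) : ℝ) / (t : ℝ) ^ d) atTop
      (𝓝 (∑ i ∈ Finset.range (d + 1),
        δ i * (a : ℝ) ^ (d - i) * (b : ℝ) ^ i / ((d - i).factorial * i.factorial)))

/-- `l` is the `i`-th dynamical degree `λ_i(f) = lim_n (deg_{i,L} f^n)^{1/n}`. -/
def IsDynamicalDegree {k K : Type u} [Field k] [Field K] [Algebra k K]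
    (d : ℕ) (V : Submodule k K) (f : K →ₐ[k] K) (i : ℕ) (l : ℝ) : Prop :=
  ∃ δ : ℕ → ℕ → ℝ, (∀ n, HasDegrees d V (f ^ n) (δ n)) ∧
    Tendsto (fun n : ℕ => (δ n i) ^ (1 / (n : ℝ))) atTop (𝓝 l)

open Pool.Agent.Lib.Pdcd72d in
/-- **No uniform gap for `μ_i`, `i ≥ 2`.**  Over every field `k`, for every dimension `d ≥ 2` and
every index `2 ≤ i ≤ d`, and for every `μ > 1`, there is a `d`-dimensional projective variety over
`k` and a dominant rational self-map `f` of it with
`μ_i(f) = λ_i(f) / λ_{i-1}(f) ∈ (1, μ)`. -/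
theorem result (k : Type u) [Field k] (d i : ℕ) (hi : 2 ≤ i) (hid : i ≤ d)
    (μ : ℝ) (hμ : 1 < μ) :
    ∃ (K : Type u) (_ : Field K) (_ : Algebra k K) (V : Submodule k K) (f : K →ₐ[k] K)
      (l l' : ℝ), IsProjectiveModel d V ∧ IsDynamicalDegree d V f (i - 1) l' ∧
        IsDynamicalDegree d V f i l ∧ 1 < l / l' ∧ l / l' < μ := by
  obtain ⟨r, rfl⟩ := Nat.exists_eq_add_of_le' hi
  obtain ⟨w, hw⟩ := Nat.exists_eq_add_of_le hid
  have hd : d = r + w + 2 := by omega
  subst hd
  obtain ⟨p, hp⟩ := exists_nat_gt (max 1 (1 / (μ - 1)))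
  have hp1 : (1 : ℝ) < p := lt_of_le_of_lt (le_max_left _ _) hp
  have hp2 : 1 / (μ - 1) < p := lt_of_le_of_lt (le_max_right _ _) hp
  have hp1' : 1 ≤ p := by
    have : (1 : ℝ) ≤ p := hp1.le
    exact_mod_cast this
  have r1 := lt_rho p
  have r2 := rho_lt p
  have r0 := rho_pos p
  refine ⟨RF k (r + w + 2), inferInstance, inferInstance, msp k (box (r + w + 2) 1),
    monHom k (theta (r + w) p (ms r w)) (theta_injective _ _ _ (ms_pos r w)),
    ((p : ℝ) + 2) * 2 ^ r, rho p * 2 ^ r,
    ⟨model_fg k _, model_one_mem k _, model_adjoin k _, model_trdeg k _⟩, ?_, ?_, ?_, ?_⟩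
  · refine ⟨degs p r w, fun n a b ha _ => tendsto_forms k p r w n a b ha, ?_⟩
    have : r + 2 - 1 = r + 1 := by omega
    rw [this]
    exact (growth p r w hp1').1
  · exact ⟨degs p r w, fun n a b ha _ => tendsto_forms k p r w n a b ha,
      (growth p r w hp1').2⟩
  · rw [mul_div_mul_right _ _ (by positivity), lt_div_iff₀ r0]
    linarith
  · rw [mul_div_mul_right _ _ (by positivity), div_lt_iff₀ r0]
    have h1 : 1 < (μ - 1) * p := by
      rw [div_lt_iff₀ (by linarith)] at hp2
      linarith
    nlinarith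

end Pool.Agent.Results.MP_dcd72d_ag.NoUniformGap
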